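import Mathlib

/-!
# The homology of hypercube Vietoris-Rips complexes is not always multiplicity-free

The Vietoris-Rips complex `X^{n,r}` of the hypercube, its simplicial homology (computed from
ordered chains), the hyperoctahedral group with its action on the homology, and the statement that
`H_7(X^{7,4})` contains the trivial representation twice.
-/

namespace Pool.Agent.Results.MP_d0402e_co.TrivialTwice

open Finset

universe u

/-! ## Definitions used in the statement -/

/-- The vertex set `{0,1}^n` of the hypercube, with `{0,1}` written as `ZMod 2`. -/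
abbrev Cube (n : ℕ) : Type := Fin n → ZMod 2

/-- Ordered `i`-simplices of the Vietoris-Rips complex `X^{n,r}`: tuples `(v_0, ..., v_i)` of
vertices with pairwise Hamming distances at most `r`. -/
def Simplex (n r i : ℕ) : Type :=
  {v : Fin (i + 1) → Cube n // ∀ a b, hammingDist (v a) (v b) ≤ r}

/-- The `j`-th face of an ordered simplex: omit the `j`-th entry. -/
def face {n r i : ℕ} (j : Fin (i + 2)) (v : Simplex n r (i + 1)) : Simplex n r i :=
  ⟨fun a => v.1 (j.succAbove a), fun _ _ => v.2 _ _⟩

/-- Formal `k`-linear combinations of elements of `A`. -/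
def Chain (k : Type u) [Field k] (A : Type) : Type u := A →₀ k

noncomputable instance (k : Type u) [Field k] (A : Type) : AddCommGroup (Chain k A) :=
  (Finsupp.instAddCommGroup : AddCommGroup (A →₀ k))

noncomputable instance (k : Type u) [Field k] (A : Type) : Module k (Chain k A) :=
  (Finsupp.module A k : Module k (A →₀ k))

/-- The `k`-linear extension of a map `A → B`. -/
noncomputable def chainMap (k : Type u) [Field k] {A B : Type} (f : A → B) :
    Chain k A →ₗ[k] Chain k B :=
  Finsupp.lmapDomain k k f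

section Homology

variable (k : Type u) [Field k] (n r : ℕ)

/-- The simplicial boundary map `∂ (v_0, ..., v_{i+1}) = ∑ j, (-1)^j (v_0, .., v_j omitted, ..)`
on ordered chains. -/
noncomputable def boundary (i : ℕ) : Chain k (Simplex n r (i + 1)) →ₗ[k] Chain k (Simplex n r i) :=
  ∑ j : Fin (i + 2), ((-1 : k) ^ (j : ℕ)) • chainMap k (face j)

/-- The `i`-cycles; every `0`-chain is a cycle. -/
noncomputable def cycles : (i : ℕ) → Submodule k (Chain k (Simplex n r i))
  | 0 => ⊤
  | i + 1 => LinearMap.ker (boundary k n r i)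

/-- The `i`-boundaries, as a submodule of the `i`-cycles. -/
noncomputable def boundaries (i : ℕ) : Submodule k (cycles k n r i) :=
  (LinearMap.range (boundary k n r i)).comap (cycles k n r i).subtype

/-- The simplicial homology `H_i(X^{n,r}; k)`: cycles modulo boundaries. -/
def Homology (i : ℕ) : Type u := cycles k n r i ⧸ boundaries k n r i

noncomputable instance (i : ℕ) : AddCommGroup (Homology k n r i) :=
  Submodule.Quotient.addCommGroup (boundaries k n r i)

noncomputable instance (i : ℕ) : Module k (Homology k n r i) :=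
  Submodule.Quotient.module (boundaries k n r i)

end Homology

/-- The hyperoctahedral group: all transformations of `{0,1}^n` that permute the coordinates and
flip the values of chosen coordinates. -/
def hyp (n : ℕ) : Subgroup (Equiv.Perm (Cube n)) where
  carrier := {g | ∃ (c : Cube n) (π : Equiv.Perm (Fin n)), ∀ x i, g x i = x (π i) + c i}
  one_mem' := ⟨0, 1, fun x i => by simp⟩
  mul_mem' := by
    rintro g h ⟨c, π, hg⟩ ⟨d, ρ, hh⟩
    refine ⟨fun i => d (π i) + c i, ρ * π, fun x i => ?_⟩
    rw [Equiv.Perm.mul_apply, hg, hh, Equiv.Perm.mul_apply, add_assoc]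
  inv_mem' := by
    rintro g ⟨c, π, hg⟩
    refine ⟨fun i => - c (π⁻¹ i), π⁻¹, fun x i => ?_⟩
    have h := hg (g⁻¹ x) (π⁻¹ i)
    have e1 : g (g⁻¹ x) = x := Equiv.apply_symm_apply g x
    have e2 : π (π⁻¹ i) = i := Equiv.apply_symm_apply π i
    rw [e1, e2] at h
    rw [h, add_neg_cancel_right]

/-- The hyperoctahedral group preserves the Hamming distance. -/
lemma hammingDist_hyp {n : ℕ} (g : hyp n) (x y : Cube n) :
    hammingDist (g.1 x) (g.1 y) = hammingDist x y := by
  obtain ⟨g, c, π, hg⟩ := g
  unfold hammingDist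
  have : (univ.filter fun i => g x i ≠ g y i)
      = (univ.filter fun i => x i ≠ y i).map π.symm.toEmbedding := by
    ext i
    simp only [mem_filter, mem_univ, true_and, mem_map_equiv, hg, ne_eq, add_left_inj,
      Equiv.symm_symm]
  rw [this, card_map]

/-- The action of the hyperoctahedral group on the ordered simplices of `X^{n,r}`. -/
def move {n : ℕ} (r i : ℕ) (g : hyp n) (v : Simplex n r i) : Simplex n r i :=
  ⟨fun a => g.1 (v.1 a), fun a b => (hammingDist_hyp g _ _).trans_le (v.2 a b)⟩

section Rep

variable (k : Type u) [Field k] {n : ℕ} (r i : ℕ)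

/-- The boundary map is equivariant. -/
lemma boundary_move (g : hyp n) (c : Chain k (Simplex n r (i + 1))) :
    boundary k n r i (chainMap k (move r (i + 1) g) c)
      = chainMap k (move r i g) (boundary k n r i c) := by
  simp only [boundary, LinearMap.sum_apply, LinearMap.smul_apply, map_sum, map_smul]
  refine Finset.sum_congr rfl fun j _ => ?_
  congr 1
  have h1 : ∀ {A B C : Type} (f : B → C) (g : A → B) (c : Chain k A),
      chainMap k f (chainMap k g c) = chainMap k (f ∘ g) c := fun f g c =>
    (LinearMap.congr_fun (Finsupp.lmapDomain_comp k k g f) c).symm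
  rw [h1, h1]
  rfl

lemma move_cycles (g : hyp n) (c : Chain k (Simplex n r i)) (hc : c ∈ cycles k n r i) :
    chainMap k (move r i g) c ∈ cycles k n r i := by
  cases i with
  | zero => exact Submodule.mem_top
  | succ i =>
    change boundary _ _ _ _ _ = 0
    rw [boundary_move]
    have : boundary k n r i c = 0 := hc
    rw [this, map_zero]

/-- The action of a group element on cycles. -/
noncomputable def cyclesMap (g : hyp n) : cycles k n r i →ₗ[k] cycles k n r i :=
  (chainMap k (move r i g)).restrict (move_cycles k r i g)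

lemma move_boundaries (g : hyp n) :
    boundaries k n r i ≤ (boundaries k n r i).comap (cyclesMap k r i g) := by
  rintro ⟨c, hc⟩ ⟨b, hb⟩
  refine ⟨chainMap k (move r (i + 1) g) b, ?_⟩
  rw [boundary_move, hb]
  rfl

/-- The action of a group element on homology. -/
noncomputable def homologyMap (g : hyp n) : Homology k n r i →ₗ[k] Homology k n r i :=
  Submodule.mapQ (boundaries k n r i) (boundaries k n r i) (cyclesMap k r i g)
    (move_boundaries k r i g)

lemma homologyMap_one : homologyMap k r i (1 : hyp n) = 1 := by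
  apply LinearMap.ext
  intro x
  obtain ⟨c, rfl⟩ := Submodule.Quotient.mk_surjective _ x
  refine (Submodule.mapQ_apply _ _ _ _).trans (congrArg _ (Subtype.ext ?_))
  exact LinearMap.congr_fun (Finsupp.lmapDomain_id k k) c.1

lemma homologyMap_mul (g h : hyp n) :
    homologyMap k r i (g * h) = homologyMap k r i g * homologyMap k r i h := by
  apply LinearMap.ext
  intro x
  obtain ⟨c, rfl⟩ := Submodule.Quotient.mk_surjective _ x
  refine (Submodule.mapQ_apply _ _ _ _).trans (congrArg _ (Subtype.ext ?_))
  exact LinearMap.congr_fun (Finsupp.lmapDomain_comp k k (move r i h) (move r i g)) c.1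

end Rep

/-- The representation of the hyperoctahedral group on the homology `H_i(X^{n,r}; k)`. -/
noncomputable def homologyRep (k : Type u) [Field k] (n r i : ℕ) :
    Representation k (hyp n) (Homology k n r i) where
  toFun := homologyMap k r i
  map_one' := homologyMap_one k r i
  map_mul' := homologyMap_mul k r i

/-- A representation is multiplicity-free if no irreducible representation occurs in it more than
once: any two isomorphic irreducible subrepresentations are equal. -/
def MultiplicityFree {k : Type*} {G : Type*} {W : Type*} [Field k] [Group G] [AddCommGroup W]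
    [Module k W] (ρ : Representation k G W) : Prop :=
  ∀ U₁ U₂ : Subrepresentation ρ, U₁.toRepresentation.IsIrreducible →
    U₂.toRepresentation.IsIrreducible →
    Nonempty (U₁.toRepresentation.Equiv U₂.toRepresentation) → U₁ = U₂

/-! ## Sanity check: the boundary maps form a chain complex -/

lemma succAbove_comm {n : ℕ} (i : Fin (n + 2)) (j : Fin (n + 3)) (h : (j : ℕ) ≤ (i : ℕ)) (a : Fin (n + 1)) :
    j.succAbove (i.succAbove a) = i.succ.succAbove ((j.castLT (lt_of_le_of_lt h i.is_lt)).succAbove a) := by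
  ext
  simp only [Fin.succAbove, Fin.lt_def, Fin.val_castSucc, Fin.val_succ, Fin.val_castLT]
  split_ifs <;> simp_all <;> omega

/-- the combinatorial identity behind `∂ ∘ ∂ = 0` -/
lemma alt_sum {k M : Type*} [Field k] [AddCommGroup M] [Module k M] (n : ℕ) (F : Fin (n + 2) → Fin (n + 3) → M)
    (hF : ∀ (i : Fin (n + 2)) (j : Fin (n + 3)) (h : (j : ℕ) ≤ (i : ℕ)), 
      F i j = F (j.castLT (lt_of_le_of_lt h i.is_lt)) i.succ) :
    ∑ i : Fin (n + 2), ∑ j : Fin (n + 3), ((-1 : k) ^ ((i : ℕ) + (j : ℕ))) • F i j = 0 := by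
  rw [← Finset.sum_product']
  let P := Fin (n + 2) × Fin (n + 3)
  let S : Finset P := {ij : P | (ij.2 : ℕ) ≤ (ij.1 : ℕ)}
  rw [Finset.univ_product_univ, ← Finset.sum_add_sum_compl S, ← eq_neg_iff_add_eq_zero,
    ← Finset.sum_neg_distrib]
  let φ : ∀ ij : P, ij ∈ S → P := fun ij hij =>
    (Fin.castLT ij.2 (lt_of_le_of_lt (Finset.mem_filter.mp hij).right (Fin.is_lt ij.1)), ij.1.succ)
  apply Finset.sum_bij φ
  · intro ij hij
    simp_rw [S, φ, Finset.compl_filter, Finset.mem_filter_univ, Fin.val_succ,
      Fin.val_castLT] at hij ⊢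
    lia
  · rintro ⟨i, j⟩ hij ⟨i', j'⟩ hij' h
    rw [Prod.mk_inj]
    exact ⟨by simpa [φ] using! congr_arg Prod.snd h,
      by simpa [φ, Fin.castSucc_castLT] using! congr_arg Fin.castSucc (congr_arg Prod.fst h)⟩
  · rintro ⟨i', j'⟩ hij'
    simp_rw [S, Finset.compl_filter, Finset.mem_filter_univ, not_le] at hij'
    refine ⟨(j'.pred <| ?_, Fin.castSucc i'), ?_, ?_⟩
    · rintro rfl
      simp only [Fin.val_zero, not_lt_zero] at hij'
    · simpa [S] using! Nat.le_sub_one_of_lt hij'
    · simp only [φ, Fin.castLT_castSucc, Fin.succ_pred]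
  · rintro ⟨i, j⟩ hij
    dsimp only [φ]
    rw [← neg_smul, hF i j (Finset.mem_filter.mp hij).right]
    congr 1
    simp only [Fin.val_succ, Fin.val_castLT]
    ring

lemma chainMap_single (k : Type u) [Field k] {A B : Type} (f : A → B) (v : A) :
    chainMap k f (Finsupp.single v (1 : k) : A →₀ k) = (Finsupp.single (f v) (1 : k) : B →₀ k) :=
  Finsupp.mapDomain_single

lemma boundary_boundary (k : Type u) [Field k] (n r i : ℕ)
    (c : Chain k (Simplex n r (i + 2))) :
    boundary k n r i (boundary k n r (i + 1) c) = 0 := by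
  have key : (boundary k n r i).comp (boundary k n r (i + 1)) = 0 := by
    refine Finsupp.lhom_ext' fun v => LinearMap.ext_ring ?_
    change boundary k n r i (boundary k n r (i + 1)
      (Finsupp.single v (1 : k) : Simplex n r (i + 2) →₀ k)) = 0
    simp only [boundary, LinearMap.sum_apply, LinearMap.smul_apply, map_sum, map_smul,
      chainMap_single, Finset.smul_sum, smul_smul, ← pow_add]
    have h0 := alt_sum (k := k) (M := Chain k (Simplex n r i)) i
      (fun (a : Fin (i + 2)) (b : Fin (i + 3)) =>
      (Finsupp.single (face a (face b v)) (1 : k) : Simplex n r i →₀ k)) (fun a b h => by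
        congr 1
        apply Subtype.ext
        funext x
        exact congrArg v.1 (succAbove_comm a b h x))
    rw [Finset.sum_comm]
    refine Eq.trans ?_ h0
    refine Finset.sum_congr rfl fun a _ => Finset.sum_congr rfl fun b _ => ?_
    rw [add_comm]
  exact LinearMap.congr_fun key c

/-! ## The facet cocycles on `X^{7,4}` -/

section Cocycle

open Matrix

/-- signed indicator that `v` is an ordering of `a` -/
def dl (a v : Fin 8 → Cube 7) : ℤ := Matrix.det (Matrix.of fun i j => if v i = a j then (1 : ℤ) else 0)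

lemma dl_ne_zero_row {a v : Fin 8 → Cube 7} (h : dl a v ≠ 0) (i : Fin 8) : ∃ j, v i = a j := by
  by_contra hc
  push Not at hc
  exact h (Matrix.det_eq_zero_of_row_eq_zero i fun j => by simp [hc j])

lemma dl_ne_zero_col {a v : Fin 8 → Cube 7} (h : dl a v ≠ 0) (j : Fin 8) : ∃ i, v i = a j := by
  by_contra hc
  push Not at hc
  exact h (Matrix.det_eq_zero_of_column_eq_zero j fun i => by simp [hc i])

lemma dl_perm {a : Fin 8 → Cube 7} (ha : Function.Injective a) (p : Equiv.Perm (Fin 8)) :
    dl a (fun i => a (p i)) = Equiv.Perm.sign p := by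
  unfold dl
  have : (Matrix.of fun i j => if a (p i) = a j then (1 : ℤ) else 0) = p.permMatrix ℤ := by
    ext i j
    simp only [Matrix.of_apply, ha.eq_iff, Equiv.Perm.permMatrix, PEquiv.toMatrix_apply,
      Equiv.toPEquiv_apply, Option.mem_def, Option.some.injEq]
  rw [this, Matrix.det_permutation]
  simp

lemma dl_ne_zero_perm {a v : Fin 8 → Cube 7} (ha : Function.Injective a) (h : dl a v ≠ 0) :
    ∃ p : Equiv.Perm (Fin 8), ∀ i, v i = a (p i) := by
  choose f hf using fun i => dl_ne_zero_row h i
  have hs : Function.Surjective f := by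
    intro j
    obtain ⟨i, hi⟩ := dl_ne_zero_col h j
    exact ⟨i, ha ((hf i).symm.trans hi)⟩
  exact ⟨Equiv.ofBijective f (Finite.surjective_iff_bijective.1 hs), hf⟩

/-- `a` is a maximal simplex of the Rips complex -/
def IsFacet (a : Fin 8 → Cube 7) : Prop := ∀ v : Cube 7, (∀ l, hammingDist (a l) v ≤ 4) → ∃ l, v = a l

lemma cocycle {a : Fin 8 → Cube 7} (hi : Function.Injective a) (ha : IsFacet a)
    (w : Fin 9 → Cube 7) (hw : ∀ i j, hammingDist (w i) (w j) ≤ 4) :
    ∑ j : Fin 9, (-1 : ℤ) ^ (j : ℕ) * dl a (fun i => w (j.succAbove i)) = 0 := by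
  by_cases hall : ∀ i, ∃ j, w i = a j
  · let A : Matrix (Fin 9) (Fin 9) ℤ :=
      Matrix.of fun i j => Fin.cases (1 : ℤ) (fun j' => if w i = a j' then 1 else 0) j
    have h1 : A.det = ∑ j : Fin 9, (-1 : ℤ) ^ (j : ℕ) * dl a (fun i => w (j.succAbove i)) := by
      rw [Matrix.det_succ_column_zero]
      refine Finset.sum_congr rfl fun j _ => ?_
      have : A j 0 = 1 := rfl
      rw [this, mul_one]
      rfl
    rw [← h1]
    refine Matrix.exists_mulVec_eq_zero_iff.1 ⟨Fin.cases 1 (fun _ => -1), ?_, ?_⟩
    · intro h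
      have := congrFun h 0
      simp at this
    · funext i
      obtain ⟨j, hj⟩ := hall i
      have hA : ∀ j', A i (Fin.succ j') = if w i = a j' then 1 else 0 := fun _ => rfl
      have hA0 : A i 0 = 1 := rfl
      simp only [Matrix.mulVec, dotProduct, Fin.sum_univ_succ (n := 8), hA, hA0, Fin.cases_zero,
        Fin.cases_succ, Pi.zero_apply, hj, hi.eq_iff]
      simp
  · push Not at hall
    obtain ⟨p, hp⟩ := hall
    refine Finset.sum_eq_zero fun j _ => ?_
    by_contra hne
    have hd : dl a (fun i => w (j.succAbove i)) ≠ 0 := right_ne_zero_of_mul hne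
    by_cases hjp : j = p
    · subst hjp
      obtain ⟨l, hl⟩ := ha (w j) (fun l => by
        obtain ⟨i, hi'⟩ := dl_ne_zero_col hd l
        rw [← hi']
        exact hw _ _)
      exact hp l hl
    · obtain ⟨i, hi'⟩ := Fin.exists_succAbove_eq (Ne.symm hjp)
      obtain ⟨l, hl⟩ := dl_ne_zero_row hd i
      rw [hi'] at hl
      exact hp l hl

end Cocycle

/-! ## Cross-polytopal cycles in `X^{7,4}` -/

section Cross

/-- The transversal of the pairs `{a l, b l}` chosen by `S`. -/
def xs (a b : Fin 8 → Cube 7) (S : Fin 8 → Bool) (l : Fin 8) : Cube 7 := if S l then b l else a l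

/-- The sign of a transversal. -/
def sg (S : Fin 8 → Bool) : ℤ := ∏ l, if S l then -1 else 1

/-- The pairs `{a l, b l}` form a cross-polytope in `X^{7,4}`. -/
def IsCross (a b : Fin 8 → Cube 7) : Prop :=
  ∀ s t : Bool, ∀ l m, l ≠ m →
    hammingDist (if s then b l else a l) (if t then b m else a m) ≤ 4

variable {a b : Fin 8 → Cube 7}

lemma IsCross.dist_le (h : IsCross a b) (S : Fin 8 → Bool) (l m : Fin 8) :
    hammingDist (xs a b S l) (xs a b S m) ≤ 4 := by
  by_cases hlm : l = m
  · subst hlm; simp
  · exact h (S l) (S m) l m hlm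

/-- The ordered simplex given by a transversal. -/
def IsCross.simplex (h : IsCross a b) (S : Fin 8 → Bool) : Simplex 7 4 7 :=
  ⟨xs a b S, h.dist_le S⟩

variable (k : Type u) [Field k]

/-- a basis chain -/
noncomputable def basisChain {A : Type} (v : A) : Chain k A := Finsupp.single v (1 : k)

/-- The cross-polytopal `7`-chain. -/
noncomputable def IsCross.cycle (h : IsCross a b) : Chain k (Simplex 7 4 7) :=
  ∑ S : Fin 8 → Bool, ((sg S : ℤ) : k) • basisChain k (h.simplex S)

lemma chainMap_basisChain {A B : Type} (f : A → B) (v : A) :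
    chainMap k f (basisChain k v) = basisChain k (f v) :=
  Finsupp.mapDomain_single

lemma boundary_basisChain {n r i : ℕ} (v : Simplex n r (i + 1)) :
    boundary k n r i (basisChain k v)
      = ∑ j : Fin (i + 2), ((-1 : k) ^ (j : ℕ)) • basisChain k (face j v) := by
  simp only [boundary, LinearMap.sum_apply, LinearMap.smul_apply, chainMap_basisChain]

lemma IsCross.cycle_mem (h : IsCross a b) : h.cycle k ∈ cycles k 7 4 7 := by
  change boundary _ _ _ _ _ = 0
  rw [IsCross.cycle, map_sum]
  simp only [map_smul, boundary_basisChain, Finset.smul_sum]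
  rw [Finset.sum_comm]
  refine Finset.sum_eq_zero fun j _ => ?_
  refine Finset.sum_involution (fun S _ => Function.update S j (!(S j))) ?_ ?_ ?_ ?_
  · intro S _
    have h1 : sg (Function.update S j (!(S j))) = - sg S := by
      unfold sg
      rw [← Finset.mul_prod_erase _ _ (mem_univ j), ← Finset.mul_prod_erase _ _ (mem_univ j)]
      have h2 : ∏ l ∈ univ.erase j, (if Function.update S j (!(S j)) l = true then (-1 : ℤ) else 1)
          = ∏ l ∈ univ.erase j, (if S l = true then (-1 : ℤ) else 1) := by
        refine Finset.prod_congr rfl fun l hl => ?_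
        rw [Function.update_of_ne (ne_of_mem_erase hl)]
      rw [h2, Function.update_self]
      cases S j <;> simp
    have h3 : face j (h.simplex (Function.update S j (!(S j)))) = face j (h.simplex S) := by
      apply Subtype.ext
      funext i
      change xs a b (Function.update S j (!(S j))) (j.succAbove i) = xs a b S (j.succAbove i)
      unfold xs
      rw [Function.update_of_ne (Fin.succAbove_ne j i)]
    rw [h1, h3]
    push_cast
    rw [neg_smul, add_neg_cancel]
  · intro S _ _ heq
    have := congrFun heq j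
    rw [Function.update_self] at this
    cases hS : S j <;> rw [hS] at this <;> simp at this
  · intro S _
    exact mem_univ _
  · intro S _
    funext l
    by_cases hl : l = j
    · subst hl; simp
    · simp [Function.update_of_ne hl]

end Cross

/-! ## Pairing cycles with facet cocycles -/

section Pairing

variable (k : Type u) [Field k]

/-- The linear functional on `7`-chains given by the facet `a`. -/
noncomputable def phi (a : Fin 8 → Cube 7) : Chain k (Simplex 7 4 7) →ₗ[k] k :=
  Finsupp.linearCombination k (fun v : Simplex 7 4 7 => ((dl a v.1 : ℤ) : k))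

lemma phi_basisChain (a : Fin 8 → Cube 7) (v : Simplex 7 4 7) :
    phi k a (basisChain k v) = ((dl a v.1 : ℤ) : k) := by
  unfold phi basisChain
  exact (Finsupp.linearCombination_single k _ _).trans (one_smul _ _)

lemma phi_boundary {a : Fin 8 → Cube 7} (hi : Function.Injective a) (ha : IsFacet a)
    (c : Chain k (Simplex 7 4 8)) : phi k a (boundary k 7 4 7 c) = 0 := by
  have key : (phi k a).comp (boundary k 7 4 7) = 0 := by
    refine Finsupp.lhom_ext' fun v => LinearMap.ext_ring ?_
    change phi k a (boundary k 7 4 7 (basisChain k v)) = 0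
    rw [boundary_basisChain, map_sum]
    have := cocycle hi ha v.1 v.2
    have h2 := congrArg (Int.cast : ℤ → k) this
    push_cast at h2
    rw [← h2]
    refine Finset.sum_congr rfl fun j _ => ?_
    rw [map_smul, phi_basisChain, smul_eq_mul]
    rfl
  exact LinearMap.congr_fun key c

/-- The functional on `H_7(X^{7,4})` given by the facet `a`. -/
noncomputable def psi {a : Fin 8 → Cube 7} (hi : Function.Injective a) (ha : IsFacet a) :
    Homology k 7 4 7 →ₗ[k] k :=
  Submodule.liftQ (boundaries k 7 4 7) ((phi k a).comp (cycles k 7 4 7).subtype) (by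
    rintro ⟨c, hc⟩ ⟨b, hb⟩
    change phi k a c = 0
    have hb' : boundary k 7 4 7 b = c := hb
    rw [← hb', phi_boundary k hi ha])

noncomputable instance : Fintype (hyp 7) := Fintype.ofFinite _

/-- The homology class of a cycle. -/
noncomputable def cls (c : Chain k (Simplex 7 4 7)) (hc : c ∈ cycles k 7 4 7) :
    Homology k 7 4 7 :=
  Submodule.Quotient.mk (p := boundaries k 7 4 7) ⟨c, hc⟩

lemma psi_cls {a : Fin 8 → Cube 7} (hi : Function.Injective a) (ha : IsFacet a)
    (c : Chain k (Simplex 7 4 7)) (hc : c ∈ cycles k 7 4 7) :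
    psi k hi ha (cls k c hc) = phi k a c := rfl

lemma homologyRep_cls (g : hyp 7) (c : Chain k (Simplex 7 4 7)) (hc : c ∈ cycles k 7 4 7) :
    homologyRep k 7 4 7 g (cls k c hc)
      = cls k (chainMap k (move 4 7 g) c) (move_cycles k 4 7 g c hc) := rfl

/-- Sum of the translates of a homology class. -/
noncomputable def orbitSum (x : Homology k 7 4 7) : Homology k 7 4 7 :=
  ∑ g : hyp 7, homologyRep k 7 4 7 g x

lemma orbitSum_invariant (x : Homology k 7 4 7) (g : hyp 7) :
    homologyRep k 7 4 7 g (orbitSum k x) = orbitSum k x := by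
  unfold orbitSum
  rw [map_sum]
  rw [← (Group.mulLeft_bijective g).sum_comp (fun h => homologyRep k 7 4 7 h x)]
  refine Finset.sum_congr rfl fun h _ => ?_
  rw [map_mul]
  rfl

/-- The integer matrix entry: pairing of the facet `a'` with the orbit sum of the
cross-polytope `(a, b)`. -/
noncomputable def entry (a' a b : Fin 8 → Cube 7) : ℤ :=
  ∑ g : hyp 7, ∑ S : Fin 8 → Bool, sg S * dl a' (fun l => g.1 (xs a b S l))

lemma psi_orbitSum {a' a b : Fin 8 → Cube 7} (hi : Function.Injective a') (ha : IsFacet a')
    (h : IsCross a b) :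
    psi k hi ha (orbitSum k (cls k (h.cycle k) (h.cycle_mem k))) = ((entry a' a b : ℤ) : k) := by
  unfold orbitSum entry
  rw [map_sum]
  push_cast
  refine Finset.sum_congr rfl fun g _ => ?_
  rw [homologyRep_cls, psi_cls]
  rw [IsCross.cycle, map_sum, map_sum]
  refine Finset.sum_congr rfl fun S _ => ?_
  rw [map_smul, map_smul, chainMap_basisChain, phi_basisChain, smul_eq_mul]
  rfl

end Pairing

/-! ## Two independent invariant vectors contradict multiplicity-freeness -/

section MultFree

universe v w

lemma isIrreducible_of_finrank_eq_one {k : Type u} {G : Type v} {W : Type w} [Field k] [Group G]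
    [AddCommGroup W] [Module k W] (ρ : Representation k G W) (h : Module.finrank k W = 1) :
    ρ.IsIrreducible := by
  have hs : IsSimpleModule k W := isSimpleModule_iff_finrank_eq_one.2 h
  have hn : Nontrivial W := Module.nontrivial_of_finrank_pos (R := k) (by omega)
  refine { exists_pair_ne := ⟨⊥, ⊤, ?_⟩, eq_bot_or_eq_top := ?_ }
  · intro hbt
    have : (⊥ : Submodule k W) = ⊤ := congrArg Subrepresentation.toSubmodule hbt
    exact bot_ne_top this
  · intro U
    rcases eq_bot_or_eq_top U.toSubmodule with h0 | h0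
    · left
      exact Subrepresentation.toSubmodule_injective h0
    · right
      exact Subrepresentation.toSubmodule_injective h0

/-- the line spanned by an invariant vector -/
def invLine {k : Type u} {G : Type v} {W : Type w} [Field k] [Group G]
    [AddCommGroup W] [Module k W] (ρ : Representation k G W) (x : W) (hx : ∀ g, ρ g x = x) :
    Subrepresentation ρ where
  toSubmodule := Submodule.span k {x}
  apply_mem_toSubmodule g v hv := by
    obtain ⟨c, rfl⟩ := Submodule.mem_span_singleton.1 hv
    rw [map_smul, hx]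
    exact Submodule.smul_mem _ _ (Submodule.mem_span_singleton_self x)

lemma not_multiplicityFree {k : Type u} {G : Type v} {W : Type w} [Field k] [Group G]
    [AddCommGroup W] [Module k W] (ρ : Representation k G W) (x y : W)
    (hx : ∀ g, ρ g x = x) (hy : ∀ g, ρ g y = y) (hli : LinearIndependent k ![x, y]) :
    ¬ MultiplicityFree ρ := by
  intro hmf
  have hx0 : x ≠ 0 := hli.ne_zero 0
  have hy0 : y ≠ 0 := hli.ne_zero 1
  have hU := hmf (invLine ρ x hx) (invLine ρ y hy)
    (isIrreducible_of_finrank_eq_one _ (finrank_span_singleton hx0))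
    (isIrreducible_of_finrank_eq_one _ (finrank_span_singleton hy0)) (by
      let e : Submodule.span k {x} ≃ₗ[k] Submodule.span k {y} :=
        (LinearEquiv.toSpanNonzeroSingleton k W x hx0).symm.trans
          (LinearEquiv.toSpanNonzeroSingleton k W y hy0)
      refine ⟨Representation.Equiv.mk e ?_⟩
      intro g
      have h1 : (invLine ρ x hx).toRepresentation g = LinearMap.id := by
        ext ⟨v, hv⟩
        obtain ⟨c, rfl⟩ := Submodule.mem_span_singleton.1 hv
        change ρ g (c • x) = c • x
        rw [map_smul, hx]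
      have h2 : (invLine ρ y hy).toRepresentation g = LinearMap.id := by
        ext ⟨v, hv⟩
        obtain ⟨c, rfl⟩ := Submodule.mem_span_singleton.1 hv
        change ρ g (c • y) = c • y
        rw [map_smul, hy]
      rw [h1, h2]
      rfl)
  have h3 : y ∈ Submodule.span k {x} := by
    have h4 : Submodule.span k {x} = Submodule.span k {y} :=
      congrArg Subrepresentation.toSubmodule hU
    rw [h4]
    exact Submodule.mem_span_singleton_self y
  obtain ⟨c, hc⟩ := Submodule.mem_span_singleton.1 h3
  have := LinearIndependent.pair_iff.1 hli c (-1) (by rw [hc]; simp)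
  simpa using this.2

end MultFree

/-! ## Affine permutations of `(ℤ/2)^3` are even -/

section Affine

def aff (c0 c1 c2 c4 : Fin 8) : Fin 8 → Fin 8 := 
  ![c0, c1, c2, c0 ^^^ c1 ^^^ c2, c4, c0 ^^^ c1 ^^^ c4, c0 ^^^ c2 ^^^ c4, c1 ^^^ c2 ^^^ c4]

def sgnf (f : Fin 8 → Fin 8) : ℤ := ∏ j : Fin 8, ∏ i ∈ Iio j, if f i < f j then 1 else -1

theorem aff_sgn : ∀ c0 c1 c2 c4 : Fin 8, (c1 ≠ c0 ∧ c2 ≠ c0 ∧ c2 ≠ c1 ∧ c4 ≠ c0 ∧ 
   c4 ≠ c1 ∧ c4 ≠ c2 ∧ c4 ≠ c0 ^^^ c1 ^^^ c2) → sgnf (aff c0 c1 c2 c4) = 1 := by decide +kernel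

theorem sign_affine (p : Equiv.Perm (Fin 8)) (hp : ∀ i j l : Fin 8, p (i ^^^ j ^^^ l) = p i ^^^ p j ^^^ p l) :
    Equiv.Perm.sign p = 1 := by
  have hf : (p : Fin 8 → Fin 8) = aff (p 0) (p 1) (p 2) (p 4) := by
    funext l
    fin_cases l
    · rfl
    · rfl
    · rfl
    · exact hp 0 1 2
    · rfl
    · exact hp 0 1 4
    · exact hp 0 2 4
    · exact hp 1 2 4
  have hne : ∀ {i j : Fin 8}, i ≠ j → p i ≠ p j := fun h h' => h (p.injective h')
  have h1 : sgnf p = 1 := by
    rw [hf]
    have h3 : p 3 = p 0 ^^^ p 1 ^^^ p 2 := hp 0 1 2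
    exact aff_sgn _ _ _ _ ⟨hne (by decide), hne (by decide), hne (by decide), hne (by decide), hne (by decide),
      hne (by decide), h3 ▸ hne (by decide)⟩
  have h2 := Equiv.Perm.sign_eq_prod_prod_Iio p
  have h3 : ((Equiv.Perm.sign p : ℤˣ) : ℤ) = 1 := by
    rw [h2, ← h1, sgnf]
    rw [Units.coe_prod]
    refine Finset.prod_congr rfl fun j _ => ?_
    rw [Units.coe_prod]
    refine Finset.prod_congr rfl fun i _ => ?_
    split_ifs <;> simp
  exact Units.ext h3

end Affine

/-! ## The two codes -/

section Codes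

/-- The 0/1 word of length 7 with the binary digits of `m`. -/
def word (m : ℕ) : Cube 7 := fun i => if m.testBit i then 1 else 0

/-- The simplex code `[7,3,4]`. -/
def a1 (l : Fin 8) : Cube 7 := word (![0, 85, 102, 51, 120, 45, 30, 75] l)
/-- The complements of the words of `a1`. -/
def b1 (l : Fin 8) : Cube 7 := word (![127, 42, 25, 76, 7, 82, 97, 52] l)
/-- The punctured simplex code `[6,3,3]` inside the face `x_6 = 0`. -/
def a2 (l : Fin 8) : Cube 7 := word (![0, 21, 38, 51, 56, 45, 30, 11] l)
/-- The complements of the words of `a2` inside the face `x_6 = 0`. -/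
def b2 (l : Fin 8) : Cube 7 := word (![63, 42, 25, 12, 7, 18, 33, 52] l)

theorem facet1 : IsFacet a1 := by unfold IsFacet; decide +kernel
theorem facet2 : IsFacet a2 := by unfold IsFacet; decide +kernel

theorem inj1 : Function.Injective a1 := by unfold Function.Injective; decide +kernel
theorem inj2 : Function.Injective a2 := by unfold Function.Injective; decide +kernel

theorem cross1 : IsCross a1 b1 := by unfold IsCross; decide +kernel
theorem cross2 : IsCross a2 b2 := by unfold IsCross; decide +kernel

theorem trans1 : ∀ S : Fin 8 → Bool,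
    (∀ l m, l ≠ m → hammingDist (xs a1 b1 S l) (xs a1 b1 S m) = 4) →
    (sg S = 1 ∧ ∀ i j l : Fin 8,
      xs a1 b1 S (i ^^^ j ^^^ l) = xs a1 b1 S i + xs a1 b1 S j + xs a1 b1 S l) := by
  decide +kernel

theorem trans2 : ∀ S : Fin 8 → Bool,
    (∀ l m, l ≠ m → 3 ≤ hammingDist (xs a2 b2 S l) (xs a2 b2 S m)) →
    (sg S = 1 ∧ ∀ i j l : Fin 8,
      xs a2 b2 S (i ^^^ j ^^^ l) = xs a2 b2 S i + xs a2 b2 S j + xs a2 b2 S l) := by
  decide +kernel

theorem trans12 : ∀ S : Fin 8 → Bool,
    ∃ l m, l ≠ m ∧ hammingDist (xs a2 b2 S l) (xs a2 b2 S m) ≠ 4 := by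
  decide +kernel

theorem dist1 : ∀ l m, l ≠ m → hammingDist (a1 l) (a1 m) = 4 := by decide +kernel
theorem dist2 : ∀ l m, l ≠ m → 3 ≤ hammingDist (a2 l) (a2 m) := by decide +kernel

theorem aff1 : ∀ i j l : Fin 8, a1 (i ^^^ j ^^^ l) = a1 i + a1 j + a1 l := by decide +kernel
theorem aff2 : ∀ i j l : Fin 8, a2 (i ^^^ j ^^^ l) = a2 i + a2 j + a2 l := by decide +kernel

lemma act_add3 (g : hyp 7) (x y z : Cube 7) :
    g.1 (x + y + z) = g.1 x + g.1 y + g.1 z := by
  obtain ⟨g, c, π, hg⟩ := g
  funext i
  simp only [hg, Pi.add_apply]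
  generalize c i = t
  generalize x (π i) = p
  generalize y (π i) = q
  generalize z (π i) = r
  revert t p q r
  decide

/-- The sign computation: an ordering of an affine code obtained by transporting an affinely
indexed family by an element of the hyperoctahedral group is even. -/
lemma dl_eq_one {a : Fin 8 → Cube 7} (hi : Function.Injective a)
    (haff : ∀ i j l : Fin 8, a (i ^^^ j ^^^ l) = a i + a j + a l) (g : hyp 7)
    (x : Fin 8 → Cube 7) (hx : ∀ i j l : Fin 8, x (i ^^^ j ^^^ l) = x i + x j + x l)
    (h : dl a (fun l => g.1 (x l)) ≠ 0) : dl a (fun l => g.1 (x l)) = 1 := by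
  obtain ⟨p, hp⟩ := dl_ne_zero_perm hi h
  have hpa : ∀ i j l : Fin 8, p (i ^^^ j ^^^ l) = p i ^^^ p j ^^^ p l := by
    intro i j l
    apply hi
    rw [haff, ← hp, ← hp, ← hp, ← hp]
    simp only [hx]
    exact act_add3 g _ _ _
  have hfun : (fun l => g.1 (x l)) = fun l => a (p l) := funext hp
  rw [hfun, dl_perm hi, sign_affine p hpa]
  rfl

lemma term1 (g : hyp 7) (S : Fin 8 → Bool) (h : dl a1 (fun l => g.1 (xs a1 b1 S l)) ≠ 0) :
    sg S * dl a1 (fun l => g.1 (xs a1 b1 S l)) = 1 := by
  obtain ⟨p, hp⟩ := dl_ne_zero_perm inj1 h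
  have hS := trans1 S (fun l m hlm => by
    rw [← hammingDist_hyp g, hp, hp]
    exact dist1 _ _ (fun h => hlm (p.injective h)))
  rw [hS.1, dl_eq_one inj1 aff1 g _ hS.2 h, one_mul]

lemma term2 (g : hyp 7) (S : Fin 8 → Bool) (h : dl a2 (fun l => g.1 (xs a2 b2 S l)) ≠ 0) :
    sg S * dl a2 (fun l => g.1 (xs a2 b2 S l)) = 1 := by
  obtain ⟨p, hp⟩ := dl_ne_zero_perm inj2 h
  have hS := trans2 S (fun l m hlm => by
    rw [← hammingDist_hyp g, hp, hp]
    exact dist2 _ _ (fun h => hlm (p.injective h)))
  rw [hS.1, dl_eq_one inj2 aff2 g _ hS.2 h, one_mul]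

lemma term12 (g : hyp 7) (S : Fin 8 → Bool) :
    dl a1 (fun l => g.1 (xs a2 b2 S l)) = 0 := by
  by_contra h
  obtain ⟨p, hp⟩ := dl_ne_zero_perm inj1 h
  obtain ⟨l, m, hlm, hd⟩ := trans12 S
  apply hd
  rw [← hammingDist_hyp g, hp, hp]
  exact dist1 _ _ (fun h => hlm (p.injective h))

lemma sum_pos_of_one {ι : Type} [Fintype ι] (f : ι → ℤ) (hf : ∀ i, 0 ≤ f i) (i : ι)
    (hi : 0 < f i) : 0 < ∑ j, f j :=
  Finset.sum_pos' (fun j _ => hf j) ⟨i, mem_univ _, hi⟩

lemma sum_pos_of_terms {a b : Fin 8 → Cube 7} (hi : Function.Injective a)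
    (ht : ∀ (g : hyp 7) (S : Fin 8 → Bool), dl a (fun l => g.1 (xs a b S l)) ≠ 0 →
      sg S * dl a (fun l => g.1 (xs a b S l)) = 1) : 0 < entry a a b := by
  have hnn : ∀ (g : hyp 7) (S : Fin 8 → Bool),
      0 ≤ sg S * dl a (fun l => g.1 (xs a b S l)) := by
    intro g S
    by_cases h : dl a (fun l => g.1 (xs a b S l)) = 0
    · rw [h, mul_zero]
    · rw [ht g S h]; exact zero_le_one
  have hnn' : ∀ g : hyp 7, 0 ≤ ∑ S : Fin 8 → Bool, sg S * dl a (fun l => g.1 (xs a b S l)) :=
    fun g => Finset.sum_nonneg fun S _ => hnn g S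
  have h1 : (fun l => (1 : hyp 7).1 (xs a b (fun _ => false) l))
      = fun l => a ((1 : Equiv.Perm (Fin 8)) l) := by
    funext l
    rfl
  have h2 : dl a (fun l => (1 : hyp 7).1 (xs a b (fun _ => false) l)) = 1 := by
    rw [h1, dl_perm hi, map_one]
    rfl
  have h3 : 0 < sg (fun _ => false) * dl a (fun l => (1 : hyp 7).1 (xs a b (fun _ => false) l)) := by
    rw [ht 1 (fun _ => false) (by rw [h2]; exact one_ne_zero)]
    exact zero_lt_one
  have h4 : 0 < ∑ S : Fin 8 → Bool, sg S * dl a (fun l => (1 : hyp 7).1 (xs a b S l)) :=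
    sum_pos_of_one (fun S : Fin 8 → Bool => sg S * dl a (fun l => (1 : hyp 7).1 (xs a b S l)))
      (fun S => hnn 1 S) (fun _ => false) h3
  exact sum_pos_of_one
    (fun g : hyp 7 => ∑ S : Fin 8 → Bool, sg S * dl a (fun l => g.1 (xs a b S l)))
    hnn' 1 h4

lemma entry11_pos : 0 < entry a1 a1 b1 := sum_pos_of_terms inj1 term1
lemma entry22_pos : 0 < entry a2 a2 b2 := sum_pos_of_terms inj2 term2
lemma entry12_zero : entry a1 a2 b2 = 0 := by
  unfold entry
  refine Finset.sum_eq_zero fun g _ => Finset.sum_eq_zero fun S _ => ?_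
  rw [term12, mul_zero]

end Codes

/-- **Main result.** For every field `k` of characteristic zero, the representation of the
hyperoctahedral group on `H_7(X^{7,4}; k)` is not multiplicity-free. -/
theorem result (k : Type u) [Field k] [CharZero k] :
    ¬ MultiplicityFree (homologyRep k 7 4 7) := by
  refine not_multiplicityFree _ (orbitSum k (cls k (cross1.cycle k) (cross1.cycle_mem k)))
    (orbitSum k (cls k (cross2.cycle k) (cross2.cycle_mem k)))
    (orbitSum_invariant k _) (orbitSum_invariant k _) ?_
  rw [LinearIndependent.pair_iff]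
  intro s t hst
  have e1 := congrArg (psi k inj1 facet1) hst
  have e2 := congrArg (psi k inj2 facet2) hst
  rw [map_add, map_smul, map_smul, psi_orbitSum, psi_orbitSum, map_zero, entry12_zero] at e1
  rw [map_add, map_smul, map_smul, psi_orbitSum, psi_orbitSum, map_zero] at e2
  have h11 : ((entry a1 a1 b1 : ℤ) : k) ≠ 0 := Int.cast_ne_zero.2 entry11_pos.ne'
  have h22 : ((entry a2 a2 b2 : ℤ) : k) ≠ 0 := Int.cast_ne_zero.2 entry22_pos.ne'
  have hs : s = 0 := by
    simpa [h11] using e1
  subst hs
  refine ⟨rfl, ?_⟩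
  simpa [h22] using e2

end Pool.Agent.Results.MP_d0402e_co.TrivialTwice
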